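import Pool.Agent.X15.SysS.Idx

/-!
# Primes `p_{kn}² + t` with `2k + 1` free of small prime factors, for most constants `t`

Fix `n` and `z`. For all but an arbitrarily small proportion of the integers `t ≤ x²` for which `q² + t` has no local
obstruction, there are at least `c x / (log x)²` integers `k` such that `p_{kn} ≤ x`, no prime `l ≤ z` divides
`2k + 1`, and `p_{kn}² + t` is prime; and the same for several constants at once.

The theorem rests on the library development Pool.Agent.TH882.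
-/

set_option autoImplicit false

open Finset Filter Topology

namespace Pool.Agent.Results.MP_c971ef_nt.MostConstantsRoughIndex

/-- The `m`-th prime: `p 1 = 2`, `p 2 = 3`, `p 3 = 5`, and so on. -/
noncomputable def p (m : ℕ) : ℕ := Nat.nth Nat.Prime (m - 1)

/-- No local obstruction: for every prime `l` there is an integer `y` such that `l` divides neither `y` nor any
`y² + t_j`. -/
def Admissible {r : ℕ} (t : Fin r → ℕ) : Prop :=
  ∀ l : ℕ, l.Prime → ∃ y : ℤ, ¬ (l : ℤ) ∣ y ∧ ∀ j, ¬ (l : ℤ) ∣ y ^ 2 + t j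

/-- The integers `k ≥ 1` with `p_{kn} ≤ x` for which no prime `l ≤ z` divides `2k + 1` and all the numbers
`p_{kn}² + t_j` are prime. -/
def solutions (n z : ℕ) {r : ℕ} (t : Fin r → ℕ) (x : ℕ) : Set ℕ :=
  {k : ℕ | 1 ≤ k ∧ p (k * n) ≤ x ∧ (∀ l : ℕ, l.Prime → l ≤ z → ¬ l ∣ 2 * k + 1) ∧
    ∀ j, (p (k * n) ^ 2 + t j).Prime}

/-- The admissible vectors of positive integers `t_j ≤ x²` with fewer than `c x / (log x) ^ (r + 1)` such `k`. -/
def exceptions (n z r : ℕ) (c : ℝ) (x : ℕ) : Set (Fin r → ℕ) :=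
  {t : Fin r → ℕ | (∀ j, 1 ≤ t j ∧ t j ≤ x ^ 2) ∧ Admissible t ∧
    ((solutions n z t x).ncard : ℝ) < c * (x / Real.log x ^ (r + 1))}

lemma p_primeCounting {q : ℕ} (hq : q.Prime) : p (Nat.primeCounting q) = q := by
  unfold p
  have h1 : Nat.primeCounting q = Nat.count Nat.Prime q + 1 := by
    unfold Nat.primeCounting Nat.primeCounting'
    rw [Nat.count_succ, if_pos hq]
  rw [h1, Nat.add_sub_cancel]
  exact Nat.nth_count hq

lemma solutions_finite {n : ℕ} (hn : 1 ≤ n) (z : ℕ) {r : ℕ} (t : Fin r → ℕ) (x : ℕ) :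
    (solutions n z t x).Finite := by
  apply (Set.finite_Iic (x + 1)).subset
  rintro k ⟨h1, h3, -⟩
  rw [Set.mem_Iic]
  have h4 : k * n - 1 ≤ p (k * n) := (Nat.nth_strictMono Nat.infinite_setOf_prime).le_apply (x := k * n - 1)
  have h5 : k ≤ k * n := Nat.le_mul_of_pos_right k hn
  omega

/-- **Prime values of `p_{kn}² + t` with `2k + 1` free of small prime factors, for most `t`.** Let `n, r ≥ 1`, `z ≥ 0` and
`κ > 0`. There are `c > 0` and `x₀` such that for all `x ≥ x₀` and for all admissible vectors `(t_1, ..., t_r)` of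
positive integers `t_j ≤ x²`, with at most `κ x ^ (2 r)` exceptions, there are at least `c x / (log x) ^ (r + 1)`
integers `k` such that `p_{kn} ≤ x`, `2k + 1` has no prime factor `l ≤ z` and all the numbers `p_{kn}² + t_j` are
prime. -/
theorem result (n : ℕ) (hn : 1 ≤ n) (z r : ℕ) (κ : ℝ) (hκ : 0 < κ) : ∃ c : ℝ, 0 < c ∧ ∃ x₀ : ℕ,
      ∀ x : ℕ, x₀ ≤ x → ((exceptions n z r c x).ncard : ℝ) ≤ κ * (x : ℝ) ^ (2 * r) := by
  classical
  have hM : 1 ≤ n * z.factorial := Nat.mul_pos hn (Nat.factorial_pos z)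
  have hS : Pool.Agent.TH882.HY.Syn (n * z.factorial) {m : ℕ | n * z.factorial ∣ m} := by
    generalize n * z.factorial = N at hM
    intro j _
    refine ⟨(N - j % N) % N, Nat.mod_lt _ hM, ?_⟩
    have h2 : j % N < N := Nat.mod_lt _ hM
    show N ∣ j + (N - j % N) % N
    rw [Nat.dvd_iff_mod_eq_zero, Nat.add_mod, Nat.mod_mod, ← Nat.add_mod]
    have h3 : j = N * (j / N) + j % N := (Nat.div_add_mod j N).symm
    have h4 : j + (N - j % N) = N * (j / N + 1) := by
      rw [Nat.mul_add, mul_one]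
      omega
    rw [h4]
    exact Nat.mul_mod_right N _
  obtain ⟨S, hSdef⟩ : ∃ S : Set ℕ, S = {m : ℕ | n * z.factorial ∣ m} := ⟨_, rfl⟩
  have hSmem : ∀ m, m ∈ S → n * z.factorial ∣ m := fun m hm => by rw [hSdef] at hm; exact hm
  rw [← hSdef] at hS
  clear hSdef
  obtain ⟨c, hc, x₀, h⟩ := Pool.Agent.X15.SysS.idx_sys (fun _ : Fin r => (1 : ℤ))
    (fun _ => Or.inl rfl) (fun _ => Polynomial.X ^ 2) (fun _ => by simp) (fun _ => by simp) _ hM _ hS 1
    κ hκ
  refine ⟨c, hc, x₀, fun x hx => ?_⟩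
  have h1 := h x hx
  have e0 : ∏ j : Fin r, (x : ℝ) ^ ((Polynomial.X : Polynomial ℤ) ^ 2).natDegree = (x : ℝ) ^ (2 * r) := by
    rw [Polynomial.natDegree_X_pow, prod_const, card_univ, Fintype.card_fin, ← pow_mul]
  rw [e0] at h1
  refine le_trans ?_ h1
  apply Nat.cast_le.2
  rw [← Set.ncard_coe_finset]
  apply Set.ncard_le_ncard _ (finite_toSet _)
  rintro t ⟨hk1, hk2, hk3⟩
  rw [mem_coe, mem_filter, Fintype.mem_piFinset]
  refine ⟨fun j => ?_, ?_, lt_of_le_of_lt ?_ hk3⟩
  · rw [mem_Icc, Polynomial.natDegree_X_pow, one_mul]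
    exact hk1 j
  · intro l hl
    obtain ⟨y, hy1, hy2⟩ := hk2 l hl
    refine ⟨y, hy1, fun j hd => hy2 j ?_⟩
    rw [one_mul, Polynomial.eval_pow, Polynomial.eval_X, add_comm] at hd
    exact hd
  · apply Nat.cast_le.2
    rw [← Set.ncard_coe_finset]
    have key : ∀ q : ℕ, Nat.primeCounting q ∈ S →
        Nat.primeCounting q / n * n = Nat.primeCounting q := fun q hq =>
      Nat.div_mul_cancel (dvd_trans (Dvd.intro _ rfl) (hSmem _ hq))
    apply Set.ncard_le_ncard_of_injOn (fun q => Nat.primeCounting q / n) _ _ (solutions_finite hn z t x)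
    · intro q hq
      rw [mem_coe, mem_filter, mem_Icc] at hq
      obtain ⟨⟨hq1, hq2⟩, hq3, hq4, hq5⟩ := hq
      have hk := key q hq4
      have hpos : 1 ≤ Nat.primeCounting q :=
        Nat.monotone_primeCounting hq3.two_le |>.trans' (by decide)
      refine ⟨?_, ?_, ?_, ?_⟩
      · show 1 ≤ Nat.primeCounting q / n
        rcases Nat.eq_zero_or_pos (Nat.primeCounting q / n) with h0 | h0
        · rw [h0, zero_mul] at hk
          omega
        · exact h0
      · show p (Nat.primeCounting q / n * n) ≤ x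
        rw [hk, p_primeCounting hq3]
        exact hq2
      · intro l hl hlz hdvd
        have h6 : n * z.factorial ∣ Nat.primeCounting q := hSmem _ hq4
        have h7 : z.factorial ∣ Nat.primeCounting q / n :=
          (Nat.dvd_div_iff_mul_dvd (dvd_trans (Dvd.intro _ rfl) h6)).2 h6
        have h8 : l ∣ 2 * (Nat.primeCounting q / n) :=
          dvd_mul_of_dvd_right (((Nat.Prime.dvd_factorial hl).2 hlz).trans h7) 2
        exact hl.one_lt.ne' (Nat.dvd_one.1 ((Nat.dvd_add_right h8).1 hdvd))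
      · intro j
        have h5 := hq5 j
        rw [one_mul, Polynomial.eval_pow, Polynomial.eval_X] at h5
        show (p (Nat.primeCounting q / n * n) ^ 2 + t j).Prime
        rw [hk, p_primeCounting hq3]
        have h6 : ((t j : ℤ) + (q : ℤ) ^ 2).toNat = q ^ 2 + t j := by
          have : ((t j : ℤ) + (q : ℤ) ^ 2) = ((q ^ 2 + t j : ℕ) : ℤ) := by push_cast; ring
          rw [this, Int.toNat_natCast]
        rwa [h6] at h5
    · intro q hq q' hq' hqq
      rw [mem_coe, mem_filter] at hq hq'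
      have h9 : Nat.primeCounting q = Nat.primeCounting q' := by
        rw [← key q hq.2.2.1, ← key q' hq'.2.2.1]
        simp only at hqq
        rw [hqq]
      rw [← p_primeCounting hq.2.1, ← p_primeCounting hq'.2.1, h9]

end Pool.Agent.Results.MP_c971ef_nt.MostConstantsRoughIndex
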