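import Mathlib
import Pool.Agent.X28.SX.StepI
import Pool.Agent.Y877.SxP

/-!
# Primes `2 k + 1` with `p_{k n} ^ 2 + t` prime, for almost all constants `t`

For every `n` up to any power of `log x` and almost all vectors of constants `t_i, u_i`, `i < r` (multiples of a small
primorial), among the `k ≤ x / n` with `2 k + 1` prime all the numbers `p_{k n} ^ 2 + t_i` and `2 k + 1 + u_i` are prime for
at least `1 - ε` times the expected number of `k`.
-/

set_option autoImplicit false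

namespace Pool.Agent.Results.MP_c971ef_nt.OddPrimesAndSquareShifts

open Finset Filter

/-- the `k`-th prime, `p 1 = 2` -/
noncomputable def p (k : ℕ) : ℕ := Nat.nth Nat.Prime (k - 1)

/-- the product of `1 - 1/q` over the primes `q ≤ y` -/
noncomputable def V (y : ℕ) : ℝ := ∏ q ∈ (Icc 1 y).filter Nat.Prime, (1 - 1 / (q : ℝ))

/-- the number `p_{k n}` for `c = 0` and `2 k + 1` for `c = 1` -/
noncomputable def base (n : ℕ) (c : Fin 2) (k : ℕ) : ℕ := ![p (k * n), 2 * k + 1] c

/-- the exponents: `2` for `p_{k n}` and `1` for `2 k + 1` -/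
def ex (c : Fin 2) : ℕ := ![2, 1] c

open Classical in
/-- the `k ∈ K` for which all the numbers `p_{k n} ^ 2 + t (0, i)` and `2 k + 1 + t (1, i)`, `i < r`, are prime -/
noncomputable def Good (n : ℕ) (K : Finset ℕ) {r : ℕ} (t : Fin 2 × Fin r → ℕ) : Finset ℕ :=
  K.filter (fun k => ∀ i, (base n i.1 k ^ ex i.1 + t i).Prime)

/-- the positive integers `k` with `k n ≤ x` for which `2 k + 1` is prime -/
noncomputable def Odds (x n : ℕ) : Finset ℕ := (Icc 1 (x / n)).filter (fun k => (2 * k + 1).Prime)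

open Classical in
/-- the conclusion for the set `K`: for all but at most `ε (G 0 * G 1) ^ r` of the vectors `g` with
`g (c, i) ∈ [1, G c]` (`c < 2`, `i < r`) all the numbers `p_{k n} ^ 2 + t (0, i)`, `2 k + 1 + t (1, i)` with
`t (c, i) = M (g₀ c + g (c, i))` are prime for at least `(1 - ε) #K / (2 V y ^ 2 log ^ 2 x) ^ r` elements `k` of `K`; `M` is
the product of the primes up to `y` -/
def Sharp (x n r y : ℕ) (g₀ G : Fin 2 → ℕ) (ε : ℝ) (K : Finset ℕ) : Prop :=
  (((Fintype.piFinset (fun i : Fin 2 × Fin r => Icc 1 (G i.1))).filter (fun g =>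
    ((Good n K (fun i => primorial y * (g₀ i.1 + g i))).card : ℝ) <
      (1 - ε) * (K.card / (2 * (V y * Real.log x) ^ 2) ^ r))).card : ℝ) ≤ ε * ((G 0 : ℝ) * G 1) ^ r

theorem base_inj (x n : ℕ) (hn : 1 ≤ n) (c : Fin 2) (K : Finset ℕ) (hK : ∀ k ∈ K, 1 ≤ k ∧ k * n ≤ x) :
    Set.InjOn (base n c) (K : Set ℕ) := by
  intro a ha b hb hab
  have h1 := hK a (mem_coe.1 ha)
  have h2 := hK b (mem_coe.1 hb)
  fin_cases c
  · have h3 := Pool.Agent.X28.SX.nth_inj' (a := a * n) (b := b * n) (Nat.mul_pos h1.1 hn) (Nat.mul_pos h2.1 hn) hab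
    exact Nat.eq_of_mul_eq_mul_right hn h3
  · have h : 2 * a + 1 = 2 * b + 1 := hab
    omega

theorem odds_low : ∃ X0 : ℕ, ∀ X : ℕ, X0 ≤ X → ∀ x : ℕ, X ≤ x → 4 * Real.log x ≤ X →
    (X : ℝ) / (4 * Real.log x) ≤ (((Icc 1 X).filter (fun k => (2 * k + 1).Prime)).card : ℝ) := by
  classical
  obtain ⟨n1, hn1⟩ := Pool.Agent.Y877.SX.pi_low
  refine ⟨max n1 8, fun X hX x hXx h4 => ?_⟩
  have b1 : n1 ≤ X := (le_max_left _ _).trans hX
  have b2 : 8 ≤ X := (le_max_right _ _).trans hX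
  have h1 := hn1 (2 * X + 1) (by omega)
  have hXr : (8 : ℝ) ≤ X := by exact_mod_cast b2
  have hxr : (X : ℝ) ≤ x := by exact_mod_cast hXx
  have hL0 : 0 < Real.log x := Real.log_pos (by linarith)
  have hl0 : 0 < Real.log ((2 * X + 1 : ℕ) : ℝ) := Real.log_pos (by push_cast; linarith)
  have hl : Real.log ((2 * X + 1 : ℕ) : ℝ) ≤ 2 * Real.log x := by
    have h2 : ((2 * X + 1 : ℕ) : ℝ) ≤ (x : ℝ) ^ 2 := by
      push_cast
      nlinarith
    have h3 := Real.log_le_log (by positivity) h2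
    rwa [Real.log_pow] at h3
  have h5 : (X : ℝ) / (2 * Real.log x) ≤ ((2 * X + 1 : ℕ) : ℝ) / (2 * Real.log ((2 * X + 1 : ℕ) : ℝ)) := by
    rw [div_le_div_iff₀ (by positivity) (by positivity)]
    push_cast at hl ⊢
    have h6 : (X : ℝ) * (2 * Real.log (2 * X + 1)) ≤ X * (2 * (2 * Real.log x)) :=
      mul_le_mul_of_nonneg_left (by linarith) (by linarith)
    have h7 : (2 * (X : ℝ)) * (2 * Real.log x) ≤ (2 * X + 1) * (2 * Real.log x) :=
      mul_le_mul_of_nonneg_right (by linarith) (by linarith)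
    linarith
  have h8 : Nat.primeCounting (2 * X + 1) ≤ ((Icc 1 X).filter (fun k => (2 * k + 1).Prime)).card + 1 := by
    have h9 : Nat.primeCounting (2 * X + 1) = ((range (2 * X + 2)).filter Nat.Prime).card := by
      rw [Nat.primeCounting, Nat.primeCounting', Nat.count_eq_card_filter_range]
    have h10 : (range (2 * X + 2)).filter Nat.Prime ⊆
        insert 2 (((Icc 1 X).filter (fun k => (2 * k + 1).Prime)).image (fun k => 2 * k + 1)) := by
      intro q hq
      rw [mem_filter, mem_range] at hq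
      rw [mem_insert, mem_image]
      rcases hq.2.eq_two_or_odd with h | h
      · exact Or.inl h
      · right
        have h11 := hq.2.two_le
        refine ⟨q / 2, ?_, by omega⟩
        rw [mem_filter, mem_Icc]
        have h12 : 2 * (q / 2) + 1 = q := by omega
        rw [h12]
        exact ⟨⟨by omega, by omega⟩, hq.2⟩
    rw [h9]
    calc _ ≤ _ := card_le_card h10
      _ ≤ (((Icc 1 X).filter (fun k => (2 * k + 1).Prime)).image (fun k => 2 * k + 1)).card + 1 := card_insert_le _ _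
      _ ≤ _ := by
          have := card_image_le (s := (Icc 1 X).filter (fun k => (2 * k + 1).Prime)) (f := fun k => 2 * k + 1)
          omega
  have h13 : (Nat.primeCounting (2 * X + 1) : ℝ) ≤ (((Icc 1 X).filter (fun k => (2 * k + 1).Prime)).card : ℝ) + 1 := by
    exact_mod_cast h8
  have h14 : (1 : ℝ) ≤ X / (4 * Real.log x) := by
    rw [le_div_iff₀ (by positivity)]
    linarith
  have h15 : (X : ℝ) / (2 * Real.log x) = X / (4 * Real.log x) + X / (4 * Real.log x) := by
    field_simp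
    ring
  linarith

/-- For all `r`, `A`, `C` and `0 < ε ≤ 1` there is `K₀` such that for every `K₁` and every large `x`, every `y` between
`K₀ log log x` and `K₁ log log x`, with `M` the product of the primes `≤ y`, all windows `(g₀ c, g₀ c + G c]` with
`M (g₀ 0 + G 0) ≤ x ^ 2`, `G 0 ≥ x ^ 2 / (M log ^ C x)`, `M (g₀ 1 + G 1) ≤ x`, `G 1 ≥ x / (M log ^ C x)`, and every
`n ≥ 1`:
(1) for every set `K` of at least `x / log ^ A x` positive integers `k` with `k n ≤ x` and `2 k + 1` prime, for all but at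
most `ε (G 0 * G 1) ^ r` of the vectors `g` with `g (c, i) ∈ [1, G c]` all the numbers `p_{k n} ^ 2 + t (0, i)` and
`2 k + 1 + t (1, i)`, `i < r`, `t (c, i) = M (g₀ c + g (c, i))`, are prime for at least
`(1 - ε) #K / (2 V y ^ 2 log ^ 2 x) ^ r` elements `k` of `K`;
(2) if `n ≤ log ^ A x`, there are at least `x / (8 n log x)` positive integers `k` with `k n ≤ x` and `2 k + 1` prime, and
the conclusion of (1) holds for the set of all of them. -/
theorem result : ∀ (r A C : ℕ) (ε : ℝ), 0 < ε → ε ≤ 1 → ∃ K₀ : ℕ, ∀ K₁ : ℕ, ∃ x₀ : ℕ, ∀ x : ℕ, x₀ ≤ x →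
    ∀ y : ℕ, K₀ * Real.log (Real.log x) ≤ y → y ≤ K₁ * Real.log (Real.log x) →
    ∀ g₀ G : Fin 2 → ℕ, (∀ c, primorial y * (g₀ c + G c) ≤ x ^ ex c) →
    (∀ c, (x : ℝ) ^ ex c ≤ primorial y * G c * Real.log x ^ C) →
    ∀ n : ℕ, 1 ≤ n →
      (∀ K : Finset ℕ, (∀ k ∈ K, 1 ≤ k ∧ k * n ≤ x ∧ (2 * k + 1).Prime) → (x : ℝ) ≤ K.card * Real.log x ^ A →
        Sharp x n r y g₀ G ε K) ∧
      ((n : ℝ) ≤ Real.log x ^ A →
        (x : ℝ) / (8 * n * Real.log x) ≤ ((Odds x n).card : ℝ) ∧ Sharp x n r y g₀ G ε (Odds x n)) := by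
  classical
  intro r A C ε hε hε1
  have hex : ∀ c : Fin 2, ex c = 1 ∨ ex c = 2 := by
    intro c
    fin_cases c
    · exact Or.inr rfl
    · exact Or.inl rfl
  obtain ⟨K₀, hK₀⟩ := Pool.Agent.X28.SX.stepI (ι := Fin 2 × Fin r) (fun i => ex i.1) (fun i => hex i.1) (A + 2) 2 C ε
    hε hε1
  refine ⟨K₀, fun K₁ => ?_⟩
  obtain ⟨n1, hn1⟩ := hK₀ K₁
  obtain ⟨n2, hn2⟩ := Pool.Agent.X28.SX.nth_le
  obtain ⟨X0, hX0⟩ := odds_low
  obtain ⟨n3, hn3⟩ : ∃ n3 : ℕ, ∀ x : ℕ, n3 ≤ x → Real.log x ^ A * (2 * (X0 + 1) + 8 * Real.log x) ≤ x := by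
    obtain ⟨n3, h3⟩ := Pool.Agent.H373R2.T7.ev_log' (A + 2) 1
    obtain ⟨n5, h5⟩ := Pool.Agent.H373R2.T7.ev_L' (max 16 (4 * (X0 + 1)))
    refine ⟨max n3 (max n5 1), fun x hx => ?_⟩
    have h4 := h3 x ((le_max_left _ _).trans hx)
    have h6 := h5 x (((le_max_left _ _).trans (le_max_right _ _)).trans hx)
    have h7 : 16 ≤ Real.log x := (le_max_left _ _).trans h6
    have h8 : 4 * ((X0 : ℝ) + 1) ≤ Real.log x := (le_max_right _ _).trans h6
    rw [one_mul] at h4
    have h9 : (1 : ℝ) ≤ x := by exact_mod_cast ((le_max_right _ _).trans (le_max_right _ _)).trans hx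
    have h10 : √(x : ℝ) ≤ x := by
      rw [Real.sqrt_le_left (by linarith)]
      nlinarith
    refine le_trans ?_ (h4.trans h10)
    rw [pow_add]
    apply mul_le_mul_of_nonneg_left _ (by positivity)
    nlinarith
  obtain ⟨n4, hn4⟩ := Pool.Agent.H373R2.T7.ev_L' 8
  refine ⟨max n1 (max n2 (max n3 (max n4 1))), fun x hx y hy1 hy2 g₀ G hg1 hg2 n hn => ?_⟩
  have b1 : n1 ≤ x := le_trans (le_max_left _ _) hx
  have b2 : n2 ≤ x := le_trans (le_trans (le_max_left _ _) (le_max_right _ _)) hx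
  have b3 : n3 ≤ x := le_trans (le_trans (le_trans (le_max_left _ _) (le_max_right _ _)) (le_max_right _ _)) hx
  have b4 : max n4 1 ≤ x := le_trans (le_trans (le_trans (le_max_right _ _) (le_max_right _ _)) (le_max_right _ _)) hx
  have hL8 := hn4 x ((le_max_left _ _).trans b4)
  have hx1 : 1 ≤ x := (le_max_right _ _).trans b4
  have hL1 : 1 ≤ Real.log x := by linarith
  have hx0 : (0 : ℝ) < x := by exact_mod_cast hx1
  have main : ∀ K : Finset ℕ, (∀ k ∈ K, 1 ≤ k ∧ k * n ≤ x ∧ (2 * k + 1).Prime) →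
      (x : ℝ) ≤ K.card * Real.log x ^ (A + 2) → Sharp x n r y g₀ G ε K := by
    intro K hK hKc
    have hbd : ∀ c : Fin 2, ∀ k ∈ K, (base n c k).Prime ∧ (base n c k : ℝ) ≤ x * Real.log x ^ 2 := by
      intro c k hk
      obtain ⟨k1, k2, k3⟩ := hK k hk
      fin_cases c
      · exact ⟨Nat.prime_nth_prime _, hn2 x b2 (k * n) (by omega)⟩
      · refine ⟨k3, ?_⟩
        have h1 : k ≤ x := (Nat.le_mul_of_pos_right k hn).trans k2
        have h2 : (2 * k + 1 : ℕ) ≤ 3 * x := by omega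
        have h3 : ((2 * k + 1 : ℕ) : ℝ) ≤ 3 * x := by exact_mod_cast h2
        refine h3.trans ?_
        rw [mul_comm]
        apply mul_le_mul_of_nonneg_left _ hx0.le
        nlinarith
    have h1 := hn1 x b1 y hy1 hy2 K hKc (fun i => base n i.1)
      (fun i => base_inj x n hn i.1 K (fun k hk => ⟨(hK k hk).1, (hK k hk).2.1⟩))
      (fun i k hk => hbd i.1 k hk) (fun i => g₀ i.1) (fun i => G i.1) (fun i => hg1 i.1) (fun i => hg2 i.1)
    have hG : ∏ i : Fin 2 × Fin r, (G i.1 : ℝ) = ((G 0 : ℝ) * G 1) ^ r := by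
      rw [Fintype.prod_prod_type]
      simp only [prod_const, card_univ, Fintype.card_fin, Fin.prod_univ_two]
      rw [mul_pow]
    have hVz : Pool.Agent.H373R2.T7.Vz y = V y := rfl
    have hE : ∏ i : Fin 2 × Fin r, (Pool.Agent.H373R2.T7.Vz y * ((ex i.1 : ℕ) * Real.log x)) =
        (2 * (V y * Real.log x) ^ 2) ^ r := by
      rw [Fintype.prod_prod_type]
      simp only [prod_const, card_univ, Fintype.card_fin, Fin.prod_univ_two]
      rw [← mul_pow, hVz]
      congr 1
      have e0 : ex 0 = 2 := rfl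
      have e1 : ex 1 = 1 := rfl
      rw [e0, e1]
      push_cast
      ring
    rw [hG] at h1
    unfold Sharp
    refine le_trans (le_of_eq ?_) h1
    congr 2
    apply filter_congr
    intro g _
    rw [hE]
    rfl
  refine ⟨fun K hK hKc => main K hK (hKc.trans ?_), fun hnA => ?_⟩
  · exact mul_le_mul_of_nonneg_left (pow_le_pow_right₀ hL1 (by omega)) (Nat.cast_nonneg _)
  · have h3 := hn3 x b3
    have hn0 : (0 : ℝ) < n := by exact_mod_cast hn
    have hnx : n ≤ x := by
      have h4 : (n : ℝ) ≤ x := by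
        refine hnA.trans (le_trans ?_ h3)
        have : 0 ≤ (X0 : ℝ) := Nat.cast_nonneg _
        nlinarith [pow_pos (show 0 < Real.log x by linarith) A]
      exact_mod_cast h4
    have h4 : x ≤ 2 * (x / n) * n := by
      have h5 := Nat.div_add_mod x n
      have h6 := Nat.mod_lt x hn
      have h7 : 1 ≤ x / n := (Nat.one_le_div_iff hn).2 hnx
      nlinarith
    obtain ⟨X, hX⟩ : ∃ X : ℕ, X = x / n := ⟨_, rfl⟩
    rw [← hX] at h4
    have h5 : (x : ℝ) ≤ 2 * (X : ℝ) * n := by exact_mod_cast h4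
    have hXr : (0 : ℝ) ≤ X := Nat.cast_nonneg _
    have h6 : (x : ℝ) ≤ 2 * X * Real.log x ^ A := h5.trans (mul_le_mul_of_nonneg_left hnA (by positivity))
    have hpA : 0 < Real.log x ^ A := by positivity
    have h7 : 2 * ((X0 : ℝ) + 1) + 8 * Real.log x ≤ 2 * X := by
      have h8 : Real.log x ^ A * (2 * ((X0 : ℝ) + 1) + 8 * Real.log x) ≤ Real.log x ^ A * (2 * X) := by
        calc _ ≤ (x : ℝ) := h3
          _ ≤ _ := by linarith
      exact le_of_mul_le_mul_left h8 hpA
    have h8 : X0 ≤ X := by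
      have : (X0 : ℝ) ≤ X := by linarith
      exact_mod_cast this
    have h9 : X ≤ x := by rw [hX]; exact Nat.div_le_self x n
    have h10 := hX0 X h8 x h9 (by
      have : 0 ≤ (X0 : ℝ) := Nat.cast_nonneg _
      linarith)
    have h11 : (x : ℝ) / (8 * n * Real.log x) ≤ ((Odds x n).card : ℝ) := by
      unfold Odds
      rw [← hX]
      refine le_trans ?_ h10
      rw [div_le_div_iff₀ (by positivity) (by positivity)]
      have hL0 : 0 ≤ Real.log x := by linarith
      calc (x : ℝ) * (4 * Real.log x) ≤ (2 * X * n) * (4 * Real.log x) :=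
            mul_le_mul_of_nonneg_right h5 (by linarith)
        _ = X * (8 * n * Real.log x) := by ring
    refine ⟨h11, main _ ?_ ?_⟩
    · intro k hk
      unfold Odds at hk
      rw [mem_filter, mem_Icc] at hk
      exact ⟨hk.1.1, (Nat.mul_le_mul_right n hk.1.2).trans (Nat.div_mul_le_self x n), hk.2⟩
    · rw [div_le_iff₀ (by positivity)] at h11
      have hc0 : (0 : ℝ) ≤ ((Odds x n).card : ℝ) := Nat.cast_nonneg _
      calc (x : ℝ) ≤ ((Odds x n).card : ℝ) * (8 * n * Real.log x) := h11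
        _ ≤ ((Odds x n).card : ℝ) * (Real.log x * Real.log x ^ A * Real.log x) := by
            apply mul_le_mul_of_nonneg_left _ hc0
            apply mul_le_mul_of_nonneg_right _ (by linarith)
            exact mul_le_mul hL8 hnA hn0.le (by linarith)
        _ = _ := by ring

end Pool.Agent.Results.MP_c971ef_nt.OddPrimesAndSquareShifts
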