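import Mathlib
import Pool.Agent.X26.AN.MeanOne

/-!
# The prime factors of `G p` for the primes `p` with `p ^ 2 - 2` prime

Let `G` be a polynomial with integer coefficients. We prove a law of Turán-Kubilius type for the prime factors of the
values `G p` at the primes `p` for which `p ^ 2 - 2` is a prime as well, in short intervals and uniformly in `G` and in
the additive function: all but at most `ε X / log ^ 2 x` (`ε` times the conjectured order of the number) of these
primes in an interval of length `X ≥ x ^ θ` satisfy `∑_{q ∣ G p} f q = ∑_{q ≤ x} f q ρ q + O (√(log log x))`, where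
`ρ q` is the proportion of the zeros of `G` among the classes `u` modulo `q` with `q ∤ u (u ^ 2 - 2)`. The same holds
for all `n` for which `n` and `n ^ 2 - 2` have no prime factor `≤ x ^ (1/u)` instead of being primes. For a fixed
irreducible `G`, different from `X` and `X ^ 2 - 2`, `G n` has `log log x + O (√(log log x))` prime factors for all but
`ε X / log ^ 2 x` of these `n`.
-/

set_option autoImplicit false

namespace Pool.Agent.Results.MP_c971ef_nt.PrimeFactorsOfPolynomialValues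

open Finset Polynomial

/-- `m` is a prime or has no prime factor `≤ w`. -/
def PrimeOrRough (w : ℝ) (m : ℕ) : Prop := m.Prime ∨ ∀ q : ℕ, q.Prime → q ∣ m → w < q

/-- Each of `n` and `n ^ 2 - 2` is a prime or has no prime factor `≤ w`. -/
def Both (w : ℝ) (n : ℕ) : Prop := PrimeOrRough w n ∧ PrimeOrRough w (n ^ 2 - 2)

/-- The sum of `f q` over the prime factors `q` of `m`. -/
noncomputable def additive (f : ℕ → ℝ) (m : ℤ) : ℝ := ∑ q ∈ m.natAbs.primeFactors, f q

/-- The classes `u` modulo `q` such that `q` divides neither `u` nor `u ^ 2 - 2`. -/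
def free (q : ℕ) : Finset ℕ := (range q).filter (fun u : ℕ => ¬ (q : ℤ) ∣ (u : ℤ) * ((u : ℤ) ^ 2 - 2))

/-- The proportion of the zeros of `G` modulo `q` among these classes. -/
noncomputable def rho (G : ℤ[X]) (q : ℕ) : ℝ :=
  (((free q).filter (fun u : ℕ => (q : ℤ) ∣ G.eval (u : ℤ))).card : ℝ) / (free q).card

/-- The sum of `f q * rho G q` over the primes `q ≤ x`. -/
noncomputable def mean (f : ℕ → ℝ) (G : ℤ[X]) (x : ℕ) : ℝ := ∑ q ∈ (Icc 1 x).filter Nat.Prime, f q * rho G q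

open Pool.Agent.X26.GP (Zf NF mem_Zf_mod Zf_lt Zf_card_lt)
open Pool.Agent.X26.AN (rh Rg mnP om sysTK mean_one PR)
open Pool.Agent.W123.RU.Poly (Sys)

theorem not_sq (a : ℤ) : a ^ 2 ≠ 2 := by
  intro h
  have h1 : a ≤ 1 := by nlinarith
  have h2 : -1 ≤ a := by nlinarith
  interval_cases a <;> omega

noncomputable def F2 : Fin 2 → ℤ[X] := ![X, X ^ 2 - C 2]

theorem F2_0 : F2 0 = X := rfl
theorem F2_1 : F2 1 = X ^ 2 - C 2 := rfl

theorem deg2 : (X ^ 2 - C 2 : ℤ[X]).natDegree = 2 := natDegree_X_pow_sub_C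

theorem monic2 : (X ^ 2 - C 2 : ℤ[X]).Monic := monic_X_pow_sub_C 2 two_ne_zero

theorem irr2 : Irreducible (X ^ 2 - C 2 : ℤ[X]) := by
  rw [monic2.irreducible_iff_roots_eq_zero_of_degree_le_three (by rw [deg2]) (by rw [deg2]; norm_num)]
  rw [Multiset.eq_zero_iff_forall_notMem]
  intro a ha
  rw [mem_roots monic2.ne_zero, IsRoot.def, eval_sub, eval_pow, eval_X, eval_C, sub_eq_zero] at ha
  exact not_sq a ha

theorem sys2 : Sys F2 := by
  refine ⟨?_, ?_, ?_, ?_, ?_⟩
  · intro i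
    fin_cases i
    · exact irreducible_X
    · exact irr2
  · intro i
    fin_cases i
    · show 0 < (X : ℤ[X]).natDegree
      rw [natDegree_X]
      norm_num
    · show 0 < (X ^ 2 - C 2 : ℤ[X]).natDegree
      rw [deg2]
      norm_num
  · intro i
    fin_cases i
    · show 0 < (X : ℤ[X]).leadingCoeff
      rw [leadingCoeff_X]
      norm_num
    · show 0 < (X ^ 2 - C 2 : ℤ[X]).leadingCoeff
      rw [monic2.leadingCoeff]
      norm_num
  · intro i j hij
    have hne : (X : ℤ[X]) ≠ X ^ 2 - C 2 := by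
      intro h
      have h1 := congrArg natDegree h
      rw [natDegree_X, deg2] at h1
      omega
    fin_cases i <;> fin_cases j
    · rfl
    · exact absurd hij hne
    · exact absurd hij.symm hne
    · rfl
  · intro p hp
    refine ⟨1, fun i => ?_⟩
    fin_cases i
    · show ¬ (p : ℤ) ∣ (X : ℤ[X]).eval ((1 : ℕ) : ℤ)
      rw [eval_X]
      intro h
      exact hp.one_lt.ne' (Nat.dvd_one.1 (by exact_mod_cast h))
    · show ¬ (p : ℤ) ∣ (X ^ 2 - C 2 : ℤ[X]).eval ((1 : ℕ) : ℤ)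
      rw [eval_sub, eval_pow, eval_X, eval_C]
      intro h
      have h1 : (p : ℤ) ∣ 1 := by
        have e : ((1 : ℕ) : ℤ) ^ 2 - 2 = -1 := by norm_num
        rw [e] at h
        exact dvd_neg.1 h
      exact hp.one_lt.ne' (Nat.dvd_one.1 (by exact_mod_cast h1))

theorem prod_eval (n : ℤ) : (∏ i, F2 i).eval n = n * (n ^ 2 - 2) := by
  rw [Fin.prod_univ_two, F2_0, F2_1, eval_mul, eval_X, eval_sub, eval_pow, eval_X, eval_C]

theorem rho_eq (G : ℤ[X]) (q : ℕ) : rh (∏ i, F2 i) G q = rho G q := by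
  classical
  have h1 : free q = range q \ Zf (∏ i, F2 i) q := by
    unfold free Zf
    ext u
    rw [mem_filter, Finset.mem_sdiff, mem_filter, prod_eval]
    tauto
  have h2 : (free q).filter (fun u : ℕ => (q : ℤ) ∣ G.eval (u : ℤ)) = Rg (∏ i, F2 i) G q := by
    unfold free Rg Zf
    ext u
    rw [mem_filter, mem_filter, Finset.mem_sdiff, mem_filter, mem_filter, prod_eval]
    tauto
  unfold rh rho
  rw [h2, h1, card_sdiff_of_subset (fun u hu => mem_range.2 (Zf_lt _ q u hu)), card_range]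
  rw [Nat.cast_sub]
  exact (card_le_card (fun u hu => mem_range.2 (Zf_lt (∏ i, F2 i) q u hu))).trans (le_of_eq (card_range q))

theorem mean_eq (f : ℕ → ℝ) (G : ℤ[X]) (x : ℕ) : mnP f (∏ i, F2 i) G x = mean f G x := by
  unfold mnP mean Pool.Agent.Y843.HS.Pr
  have h1 : Icc 1 x = Ioc 0 x := by
    ext m
    simp only [mem_Icc, mem_Ioc]
    omega
  rw [h1]
  apply sum_congr rfl
  intro q _
  rw [rho_eq]

theorem both_PR {w : ℝ} {n : ℕ} (hn : 0 < n) (h : Both w n) : ∀ i, PR w ((F2 i).eval (n : ℤ)).natAbs := by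
  intro i
  fin_cases i
  · show PR w ((X : ℤ[X]).eval (n : ℤ)).natAbs
    rw [eval_X, Int.natAbs_natCast]
    exact h.1
  · show PR w ((X ^ 2 - C 2 : ℤ[X]).eval (n : ℤ)).natAbs
    rw [eval_sub, eval_pow, eval_X, eval_C]
    rcases Nat.lt_or_ge n 2 with h2 | h2
    · have h3 : n = 1 := by omega
      rw [h3]
      right
      intro q hq hd
      have e : (((1 : ℕ) : ℤ) ^ 2 - 2).natAbs = 1 := by norm_num
      rw [e] at hd
      exact absurd (Nat.dvd_one.1 hd) hq.one_lt.ne'
    · have h3 : 2 ≤ n ^ 2 := by nlinarith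
      have e : (((n : ℕ) : ℤ) ^ 2 - 2).natAbs = n ^ 2 - 2 := by
        have h4 : ((n : ℤ) ^ 2 - 2) = ((n ^ 2 - 2 : ℕ) : ℤ) := by
          push_cast [Nat.cast_sub h3]
          ring
        rw [h4, Int.natAbs_natCast]
      rw [e]
      exact h.2

open Classical in
/-- (1) Let `r, B, A, u ≥ 1` be integers and `θ, ε > 0`. There are `K` and `x₀` such that for all `x ≥ x₀`, all
intervals `(y, y + X]` with `X ≥ x ^ θ` and `y + X ≤ x ^ A`, all polynomials `G ≠ 0` with integer coefficients, of degree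
at most `r` and with `|G n| ≤ x ^ B` for all `n` of the interval, and EVERY real function `f` with `|f q| ≤ 1` for
all `q`: for all but at most `ε X / log ^ 2 x` of the `n` of the interval such that `n` and `n ^ 2 - 2` are primes or
have no prime factor `≤ x ^ (1 / u)`, the sum of `f q` over the primes `q` which divide `G n` differs from
`mean f G x` by at most `K √(log log x)`.

(2) If `G` is fixed, irreducible, of positive degree and leading coefficient, and different from `X` and `X ^ 2 - 2`,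
then, with `K` and `x₀` depending also on `G`, all but at most `ε X / log ^ 2 x` of these `n` satisfy
`|ω (G n) - log log x| ≤ K √(log log x)`, where `ω` is the number of distinct prime factors. -/
theorem result (r B u A : ℕ) (hu : 1 ≤ u) (θ ε : ℝ) (hθ : 0 < θ) (hε : 0 < ε) :
    (∃ K : ℝ, 0 < K ∧ ∃ x₀ : ℕ, ∀ x : ℕ, x₀ ≤ x → ∀ y X : ℕ, (x : ℝ) ^ θ ≤ X → y + X ≤ x ^ A →
      ∀ G : ℤ[X], G.natDegree ≤ r → G ≠ 0 → (∀ n ∈ Ioc y (y + X), |G.eval (n : ℤ)| ≤ (x : ℤ) ^ B) →
      ∀ f : ℕ → ℝ, (∀ q, |f q| ≤ 1) →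
      (((Ioc y (y + X)).filter (fun n : ℕ => Both ((x : ℝ) ^ (1 / (u : ℝ))) n ∧
        K * √(Real.log (Real.log x)) < |additive f (G.eval (n : ℤ)) - mean f G x|)).card : ℝ) ≤
        ε * (X / Real.log x ^ 2)) ∧
    (∀ G : ℤ[X], Irreducible G → 0 < G.natDegree → 0 < G.leadingCoeff → G ≠ X → G ≠ X ^ 2 - C 2 →
      ∃ K : ℝ, 0 < K ∧ ∃ x₀ : ℕ, ∀ x : ℕ, x₀ ≤ x → ∀ y X : ℕ, (x : ℝ) ^ θ ≤ X → y + X ≤ x ^ A →
      (((Ioc y (y + X)).filter (fun n : ℕ => Both ((x : ℝ) ^ (1 / (u : ℝ))) n ∧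
        K * √(Real.log (Real.log x)) <
          |((G.eval (n : ℤ)).natAbs.primeFactors.card : ℝ) - Real.log (Real.log x)|)).card : ℝ) ≤
        ε * (X / Real.log x ^ 2)) := by
  have main : ∀ r B : ℕ, ∃ K : ℝ, 0 < K ∧ ∃ x₀ : ℕ, ∀ x : ℕ, x₀ ≤ x → ∀ y X : ℕ, (x : ℝ) ^ θ ≤ X → y + X ≤ x ^ A →
      ∀ G : ℤ[X], G.natDegree ≤ r → G ≠ 0 → (∀ n ∈ Ioc y (y + X), |G.eval (n : ℤ)| ≤ (x : ℤ) ^ B) →
      ∀ f : ℕ → ℝ, (∀ q, |f q| ≤ 1) →
      (((Ioc y (y + X)).filter (fun n : ℕ => Both ((x : ℝ) ^ (1 / (u : ℝ))) n ∧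
        K * √(Real.log (Real.log x)) < |additive f (G.eval (n : ℤ)) - mean f G x|)).card : ℝ) ≤
        ε * (X / Real.log x ^ 2) := by
    intro r B
    obtain ⟨K, hK, x₀, h⟩ := sysTK F2 sys2 r B u A hu hθ hε
    refine ⟨K, hK, x₀, fun x hx y X hX hyX G hGr hG0 hGB f hf => ?_⟩
    have h1 := h x hx G hGr hG0 y X hX hyX (fun n hn => by
      have h2 := hGB n hn
      rw [Int.abs_eq_natAbs] at h2
      exact_mod_cast h2) f hf ((Ioc y (y + X)).filter (fun n : ℕ => Both ((x : ℝ) ^ (1 / (u : ℝ))) n))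
      (filter_subset _ _) (fun n hn => by
        rw [mem_filter, mem_Ioc] at hn
        exact both_PR (by omega) hn.2)
    rw [filter_filter, mean_eq] at h1
    exact h1
  refine ⟨main r B, fun G hG hGd hGl hGX hG2 => ?_⟩
  obtain ⟨K₀, D, hKD⟩ := Pool.Agent.W123.RU.Poly.eval_bound G
  obtain ⟨K, hK, x₀, h⟩ := main G.natDegree (A * D + D + 1)
  obtain ⟨C, hC0, hC⟩ := mean_one F2 sys2 G hG hGd hGl (by
    intro i
    fin_cases i
    · exact fun h => hGX h.symm
    · exact fun h => hG2 h.symm)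
  have hev : ∀ᶠ x : ℕ in Filter.atTop, C ≤ √(Real.log (Real.log x)) := by
    have t3 : Filter.Tendsto (fun x : ℕ => √(Real.log (Real.log x))) Filter.atTop Filter.atTop :=
      Real.tendsto_sqrt_atTop.comp (Real.tendsto_log_atTop.comp (Real.tendsto_log_atTop.comp tendsto_natCast_atTop_atTop))
    exact t3.eventually_ge_atTop C
  obtain ⟨x₁, hx₁⟩ := Filter.eventually_atTop.1 hev
  refine ⟨K + 1, by positivity, max x₀ (max x₁ (max (K₀ + 2) 3)), fun x hx y X hX hyX => ?_⟩
  have hx0 : x₀ ≤ x := (le_max_left _ _).trans hx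
  have hx1 := hx₁ x ((le_max_left _ _).trans ((le_max_right _ _).trans hx))
  have hx2 : K₀ + 2 ≤ x := (le_max_left _ _).trans ((le_max_right _ _).trans ((le_max_right _ _).trans hx))
  have hx3 : 3 ≤ x := (le_max_right _ _).trans ((le_max_right _ _).trans ((le_max_right _ _).trans hx))
  have hbd : ∀ n ∈ Ioc y (y + X), |G.eval (n : ℤ)| ≤ (x : ℤ) ^ (A * D + D + 1) := by
    intro n hn
    rw [mem_Ioc] at hn
    have h1 := hKD n
    have hxr : (1 : ℝ) ≤ x := by exact_mod_cast (show 1 ≤ x by omega)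
    have h2 : 1 + |((n : ℤ) : ℝ)| ≤ (x : ℝ) ^ (A + 1) := by
      have h3 : 1 + n ≤ x ^ (A + 1) := by
        have h4 : n ≤ x ^ A := by omega
        have h5 : x ^ A * 2 ≤ x ^ A * x := Nat.mul_le_mul_left _ (by omega)
        have h6 : 1 ≤ x ^ A := Nat.one_le_pow _ _ (by omega)
        rw [pow_succ]
        omega
      have e : |((n : ℤ) : ℝ)| = (n : ℝ) := by
        rw [Int.cast_natCast]
        exact abs_of_nonneg (Nat.cast_nonneg n)
      rw [e]
      exact_mod_cast h3
    have h3 : (K₀ : ℝ) * (1 + |((n : ℤ) : ℝ)|) ^ D ≤ x * ((x : ℝ) ^ (A + 1)) ^ D := by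
      apply mul_le_mul _ _ (by positivity) (by positivity)
      · exact_mod_cast (by omega : K₀ ≤ x)
      · exact pow_le_pow_left₀ (by positivity) h2 D
    have h4 : (x : ℝ) * ((x : ℝ) ^ (A + 1)) ^ D = (x : ℝ) ^ (A * D + D + 1) := by ring
    have h5 : |((G.eval (n : ℤ) : ℤ) : ℝ)| ≤ (x : ℝ) ^ (A * D + D + 1) := by
      rw [← h4]
      exact h1.trans h3
    exact_mod_cast h5
  have h1 := h x hx0 y X hX hyX G le_rfl hG.ne_zero hbd (fun _ => 1) (fun _ => by norm_num)
  refine le_trans (Nat.cast_le.2 (card_le_card ?_)) h1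
  intro n hn
  rw [mem_filter] at hn ⊢
  refine ⟨hn.1, hn.2.1, ?_⟩
  have h2 := hn.2.2
  have h3 := hC x hx3
  rw [mean_eq] at h3
  have h4 : additive (fun _ => 1) (G.eval (n : ℤ)) = ((G.eval (n : ℤ)).natAbs.primeFactors.card : ℝ) := by
    unfold additive
    rw [sum_const, nsmul_eq_mul, mul_one]
  rw [h4]
  have h5 := abs_sub_le ((G.eval (n : ℤ)).natAbs.primeFactors.card : ℝ) (mean (fun _ => 1) G x) (Real.log (Real.log x))
  linarith

end Pool.Agent.Results.MP_c971ef_nt.PrimeFactorsOfPolynomialValues
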